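import Pool.Agent.R409.TC.Rat

/-!
# Beilinson's conjecture for triple products of weights `(k,1,1)` and totally complex fields

Fix the form `f` of weight `k ≥ 2` with character `χ_f`. For an Artin character `χ` of `ℚ` let `ord χ` be
the order of `L(f ⊗ χ, s)` at `s = k/2` and `dim χ` the multiplicity of `χ` in the `f`-part of the group of
null-homologous cycles of codimension `k/2` on the Kuga-Sato variety over `Q̄`. For `χ` induced from a
linear character `ψ` of a number field `F` these are the order at `k/2` of `L(f/F ⊗ ψ, s)` and the dimension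
of the `ψ`-part of the cycles over the field cut out by `ψ`. The odd two-dimensional Artin representations
of `ℚ` are exactly the representations `V_g` of the eigenforms `g` of weight one (cusp forms and Eisenstein
series: Deligne-Serre, Khare-Wintenberger), so the conjecture for `f` says `ord = dim` for the products
`V ⊗ V'` of two odd two-dimensional Artin representations with `χ_f det V det V' = 1`.

1. If `ord = dim` for the linear characters of all totally complex number fields, then the conjecture holds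
   for `f` and all `g, h`; moreover `ord χ - dim χ = χ(c) (ord 1 - dim 1)` for all Artin characters, `c` a
   complex conjugation.
2. Conversely the conjecture for `f` and all `g, h` gives `ord = dim` for all odd two-dimensional Artin
   representations `V_g` alone, and `ord χ - dim χ = χ(c) (ord 1 - dim 1)` for all Dirichlet characters `χ`.
-/

set_option autoImplicit false

open Pool.Agent.R386.RP (AbsGal SubField IsComplexConj)

namespace Pool.Agent.Results.MP_60ff09_nt.TotallyComplexFields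

/-- `ψ` is trivial on `Gal(Q̄/L)` for a number field `L`: a linear Artin character of `F`. -/
def IsArtin {F : SubField ℚ} (ψ : F.fixingSubgroup →* ℂˣ) : Prop :=
  ∃ L : SubField ℚ, FiniteDimensional ℚ L ∧ ∀ g : F.fixingSubgroup,
    (g : AbsGal ℚ) ∈ L.fixingSubgroup → ψ g = 1

/-- The linear character `ψ` of `Gal(Q̄/F)`, extended by zero to a function on `Gal(Q̄/ℚ)`. -/
noncomputable def fn {F : SubField ℚ} (ψ : F.fixingSubgroup →* ℂˣ) (g : AbsGal ℚ) : ℂ :=
  open Classical in if h : g ∈ F.fixingSubgroup then (ψ ⟨g, h⟩ : ℂ) else 0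

/-- The character of `Gal(Q̄/ℚ)` induced from the linear character `ψ` of `Gal(Q̄/F)`. -/
noncomputable def induced {F : SubField ℚ} (ψ : F.fixingSubgroup →* ℂˣ) (g : AbsGal ℚ) : ℂ :=
  ∑ᶠ x : AbsGal ℚ ⧸ F.fixingSubgroup, fn ψ ((x.out : AbsGal ℚ)⁻¹ * g * x.out)

/-- The virtual Artin characters of `ℚ`: integral combinations of characters induced from linear
characters of number fields (by Brauer's theorem). -/
def VirtualCharacters : AddSubgroup (AbsGal ℚ → ℂ) :=
  AddSubgroup.closure {f | ∃ (F : SubField ℚ) (ψ : F.fixingSubgroup →* ℂˣ), FiniteDimensional ℚ F ∧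
    IsArtin ψ ∧ f = induced ψ}

/-- `F` is totally complex: it has no embedding into `ℂ` with real values. -/
def TotallyComplex (F : SubField ℚ) : Prop :=
  ¬ ∃ τ : F →+* ℂ, ∀ z, (starRingEnd ℂ) (τ z) = τ z

/-- A character of finite order of `Gal(Q̄/ℚ)`, i.e. a Dirichlet character. -/
def IsDirichlet (χ : AbsGal ℚ →* ℂˣ) : Prop :=
  ∃ L : SubField ℚ, FiniteDimensional ℚ L ∧ ∀ g ∈ L.fixingSubgroup, χ g = 1

/-- The contragredient of `χ`, twisted by `ε⁻¹`. -/
noncomputable def dual (ε : AbsGal ℚ →* ℂˣ) (χ : AbsGal ℚ → ℂ) (g : AbsGal ℚ) : ℂ :=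
  χ g⁻¹ * ((ε g : ℂˣ) : ℂ)⁻¹

/-- The data attached to `f`: its character `ε`, the group `cont` of the functions `χ` for which
`L(f ⊗ χ, s)` is continued to a fixed domain containing `k/2`, the order `ord χ` of `L(f ⊗ χ, s)` at `k/2`,
the multiplicity `dim χ` of `χ` in the `f`-part of the cycles, with the known properties: `ε` is even, both
sides are additive, the Dirichlet twists are continued, and `χ ↦ χ^∨ ε⁻¹` (complex conjugation of the
coefficients, since `f ⊗ ε⁻¹` is the complex conjugate of `f`) changes neither side. -/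
structure Form where
  /-- the character of `f` -/
  ε : AbsGal ℚ →* ℂˣ
  dirichlet : IsDirichlet ε
  even : ∀ c, IsComplexConj c → ε c = 1
  /-- the characters `χ` for which `L(f ⊗ χ, s)` is continued -/
  cont : AddSubgroup (AbsGal ℚ → ℂ)
  /-- the order at `k/2` -/
  ord : (AbsGal ℚ → ℂ) → ℤ
  /-- the multiplicity in the cycles -/
  dim : (AbsGal ℚ → ℂ) → ℤ
  cont_dirichlet : ∀ χ : AbsGal ℚ →* ℂˣ, IsDirichlet χ → (fun g => ((χ g : ℂˣ) : ℂ)) ∈ cont
  ord_add : ∀ a ∈ VirtualCharacters, ∀ b ∈ VirtualCharacters, a ∈ cont → b ∈ cont →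
    ord (a + b) = ord a + ord b
  dim_add : ∀ a ∈ VirtualCharacters, ∀ b ∈ VirtualCharacters, dim (a + b) = dim a + dim b
  cont_dual : ∀ a ∈ cont, dual ε a ∈ cont
  ord_dual : ∀ a ∈ VirtualCharacters, a ∈ cont → ord (dual ε a) = ord a
  dim_dual : ∀ a ∈ VirtualCharacters, dim (dual ε a) = dim a

/-- `ρ` is an odd two-dimensional Artin representation of `ℚ`. -/
structure IsOddRep (ρ : AbsGal ℚ →* Matrix (Fin 2) (Fin 2) ℂ) : Prop where
  artin : ∃ L : SubField ℚ, FiniteDimensional ℚ L ∧ ∀ g ∈ L.fixingSubgroup, ρ g = 1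
  odd : ∀ c, IsComplexConj c → (ρ c).det = -1

/-- The character of a two-dimensional representation. -/
noncomputable def tr (ρ : AbsGal ℚ →* Matrix (Fin 2) (Fin 2) ℂ) (g : AbsGal ℚ) : ℂ := (ρ g).trace

/-- Q1 for the form `f` and all `g, h`: for all odd two-dimensional `V = V_g`, `V' = V_h` with
`χ_f det V det V' = 1` the order of `L(f ⊗ g ⊗ h, s)` at `k/2` is the dimension. The last two conditions are
always satisfied (Brauer's theorem, Garrett's continuation of the triple product `L`-function). -/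
def Beilinson (B : Form) : Prop :=
  ∀ ρ ρ' : AbsGal ℚ →* Matrix (Fin 2) (Fin 2) ℂ, IsOddRep ρ → IsOddRep ρ' →
    (∀ g, ((B.ε g : ℂˣ) : ℂ) * (ρ g).det * (ρ' g).det = 1) →
    tr ρ * tr ρ' ∈ VirtualCharacters → tr ρ * tr ρ' ∈ B.cont → B.ord (tr ρ * tr ρ') = B.dim (tr ρ * tr ρ')

/-- `ord - dim`, as a complex number. -/
noncomputable def defect (B : Form) (χ : AbsGal ℚ → ℂ) : ℂ := ((B.ord χ - B.dim χ : ℤ) : ℂ)

section proofs

open Pool.Agent.R409.TC

lemma vc_eq : VirtualCharacters = VC (G := AbsGal ℚ) (fun _ => True) := by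
  unfold VirtualCharacters VC
  congr 1
  ext f
  constructor
  · rintro ⟨F, ψ, hF, hψ, rfl⟩
    exact ⟨F.fixingSubgroup, ψ, Pool.Agent.R386.RP.isOpen_of_nf F, trivial,
      (Pool.Agent.R386.RP.art_iff ψ).1 hψ, rfl⟩
  · rintro ⟨H, ψ, hH, -, hψ, rfl⟩
    obtain ⟨h1, h2⟩ := Pool.Agent.R386.RP.exists_nf hH
    have key : ∀ F : SubField ℚ, FiniteDimensional ℚ F → F.fixingSubgroup = H →
        ∃ (F : SubField ℚ) (ψ' : F.fixingSubgroup →* ℂˣ), FiniteDimensional ℚ F ∧ IsArtin ψ' ∧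
          up H (Pool.Agent.R386.RP.ex ψ) = induced ψ' := by
      rintro F hF rfl
      exact ⟨F, ψ, hF, (Pool.Agent.R386.RP.art_iff ψ).2 hψ, rfl⟩
    exact key _ h1 h2

lemma dir_open {χ : AbsGal ℚ →* ℂˣ} (h : IsDirichlet χ) :
    ∃ U : Subgroup (AbsGal ℚ), IsOpen (U : Set (AbsGal ℚ)) ∧ ∀ g ∈ U, χ g = 1 := by
  obtain ⟨L, hL, h1⟩ := h
  exact ⟨_, Pool.Agent.R386.RP.isOpen_of_nf L, h1⟩

lemma dir_of_open {χ : AbsGal ℚ →* ℂˣ} {U : Subgroup (AbsGal ℚ)} (hU : IsOpen (U : Set (AbsGal ℚ)))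
    (h : ∀ g ∈ U, χ g = 1) : IsDirichlet χ := by
  obtain ⟨h1, h2⟩ := Pool.Agent.R386.RP.exists_nf hU
  exact ⟨_, h1, fun g hg => h g (by rwa [h2] at hg)⟩

lemma trace_zero {A : Matrix (Fin 2) (Fin 2) ℂ} (h1 : A * A = 1) (h2 : A.det = -1) : A.trace = 0 := by
  have e00 := congrFun (congrFun h1 0) 0
  have e11 := congrFun (congrFun h1 1) 1
  rw [Matrix.mul_apply, Fin.sum_univ_two, Matrix.one_apply_eq] at e00 e11
  rw [Matrix.det_fin_two] at h2
  rw [Matrix.trace_fin_two]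
  have h3 : (A 0 0 + A 1 1) ^ 2 = 0 := by linear_combination e00 + e11 + 2 * h2
  exact pow_eq_zero_iff (two_ne_zero) |>.1 h3

lemma trace_inv {A B : Matrix (Fin 2) (Fin 2) ℂ} (h : A * B = 1) : B.trace = A.trace * A.det⁻¹ := by
  have h1 : A⁻¹ = B := Matrix.inv_eq_right_inv h
  rw [← h1, Matrix.inv_def, Matrix.trace_smul, Matrix.adjugate_fin_two, Matrix.trace_fin_two_of,
    Matrix.trace_fin_two, Ring.inverse_eq_inv', smul_eq_mul]
  ring

lemma tr_cc {ρ : AbsGal ℚ →* Matrix (Fin 2) (Fin 2) ℂ} (hρ : IsOddRep ρ) {c : AbsGal ℚ}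
    (hc : IsComplexConj c) : tr ρ c = 0 := by
  refine trace_zero ?_ (hρ.odd c hc)
  rw [← map_mul, Pool.Agent.R386.RP.isCC_sq hc, map_one]

/-- the determinant -/
noncomputable def dt (ρ : AbsGal ℚ →* Matrix (Fin 2) (Fin 2) ℂ) : AbsGal ℚ →* ℂˣ :=
  (Units.map (Matrix.detMonoidHom : Matrix (Fin 2) (Fin 2) ℂ →* ℂ)).comp ρ.toHomUnits

lemma dt_val (ρ : AbsGal ℚ →* Matrix (Fin 2) (Fin 2) ℂ) (g : AbsGal ℚ) :
    ((dt ρ g : ℂˣ) : ℂ) = (ρ g).det := rfl

/-- the sum of two linear characters -/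
noncomputable def dg (α β : AbsGal ℚ →* ℂˣ) : AbsGal ℚ →* Matrix (Fin 2) (Fin 2) ℂ where
  toFun g := Matrix.diagonal ![((α g : ℂˣ) : ℂ), ((β g : ℂˣ) : ℂ)]
  map_one' := by
    rw [map_one, map_one, Units.val_one]
    ext i j
    fin_cases i <;> fin_cases j <;> simp
  map_mul' a b := by
    rw [Matrix.diagonal_mul_diagonal]
    congr 1
    funext i
    fin_cases i <;> simp

lemma dg_tr (α β : AbsGal ℚ →* ℂˣ) (g : AbsGal ℚ) : tr (dg α β) g = α g + β g := by
  unfold tr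
  rw [Matrix.trace_fin_two]
  simp [dg]

lemma dg_det (α β : AbsGal ℚ →* ℂˣ) (g : AbsGal ℚ) : (dg α β g).det = α g * β g := by
  rw [Matrix.det_fin_two]
  simp [dg]

lemma dg_odd {α β : AbsGal ℚ →* ℂˣ} (hα : IsDirichlet α) (hβ : IsDirichlet β)
    (h : ∀ c, IsComplexConj c → ((α c : ℂˣ) : ℂ) * β c = -1) : IsOddRep (dg α β) := by
  refine ⟨?_, fun c hc => by rw [dg_det, h c hc]⟩
  obtain ⟨U, hU, h1⟩ := dir_open hα
  obtain ⟨V, hV, h2⟩ := dir_open hβ
  obtain ⟨h3, h4⟩ := Pool.Agent.R386.RP.exists_nf (N := U ⊓ V) (hU.inter hV)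
  refine ⟨_, h3, fun g hg => ?_⟩
  rw [h4] at hg
  change Matrix.diagonal ![((α g : ℂˣ) : ℂ), ((β g : ℂˣ) : ℂ)] = 1
  rw [h1 g hg.1, h2 g hg.2, Units.val_one]
  ext i j
  fin_cases i <;> fin_cases j <;> simp

lemma one_dir : IsDirichlet 1 := ⟨⊥, inferInstance, fun _ _ => rfl⟩

lemma cc_pm (χ : AbsGal ℚ →* ℂˣ) {c : AbsGal ℚ} (hc : IsComplexConj c) : χ c = 1 ∨ χ c = -1 := by
  refine Pool.Agent.R386.RP.pm_of_sq ?_
  rw [← map_mul, Pool.Agent.R386.RP.isCC_sq hc, map_one]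

lemma cc_const (χ : AbsGal ℚ →* ℂˣ) {c d : AbsGal ℚ} (hc : IsComplexConj c) (hd : IsComplexConj d) :
    χ d = χ c := by
  obtain ⟨g, rfl⟩ := cc_conj hc hd
  rw [map_mul, map_mul, map_inv, mul_comm (χ g)⁻¹, inv_mul_cancel_right]

lemma exists_odd : ∃ α : AbsGal ℚ →* ℂˣ, IsDirichlet α ∧ ∀ c, IsComplexConj c → α c = -1 := by
  obtain ⟨e, ⟨U, hU, h1⟩, -, h3⟩ := Pool.Agent.R386.RP.RQ.wa ⊤ isOpen_univ
    {c : AbsGal ℚ | IsComplexConj c} (fun c hc n _ => Pool.Agent.R386.RP.isCC_conj hc n)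
  refine ⟨e.comp (Subgroup.topEquiv (G := AbsGal ℚ)).symm.toMonoidHom, dir_of_open hU (fun g hg => ?_),
    fun c hc => ?_⟩
  · exact h1 ⟨g, Subgroup.mem_top _⟩ hg
  · exact (h3 c hc (Subgroup.mem_top _)).2 hc

variable (B : Form)

lemma lin_vc {χ : AbsGal ℚ →* ℂˣ} (h : IsDirichlet χ) : (fun g => ((χ g : ℂˣ) : ℂ)) ∈ VirtualCharacters := by
  obtain ⟨U, hU, h1⟩ := dir_open h
  rw [vc_eq]
  exact lin_mem χ hU h1

/-- the conjecture for `f` gives the equality for single odd representations -/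
lemma single (hQ : Beilinson B) {ρ : AbsGal ℚ →* Matrix (Fin 2) (Fin 2) ℂ} (hρ : IsOddRep ρ)
    (h1 : tr ρ ∈ VirtualCharacters) (h2 : tr ρ ∈ B.cont) : B.ord (tr ρ) = B.dim (tr ρ) := by
  obtain ⟨L, hL, hL1⟩ := hρ.artin
  obtain ⟨U, hU, hU1⟩ := dir_open B.dirichlet
  let χ : AbsGal ℚ →* ℂˣ := (B.ε * dt ρ)⁻¹
  have hV : IsOpen ((U ⊓ L.fixingSubgroup : Subgroup (AbsGal ℚ)) : Set (AbsGal ℚ)) :=
    hU.inter (Pool.Agent.R386.RP.isOpen_of_nf L)
  have hχ1 : ∀ g ∈ U ⊓ L.fixingSubgroup, χ g = 1 := by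
    intro g hg
    have h3 : dt ρ g = 1 := by
      apply Units.ext
      rw [dt_val, hL1 g hg.2, Matrix.det_one, Units.val_one]
    change (B.ε g * dt ρ g)⁻¹ = 1
    rw [hU1 g hg.1, h3, mul_one, inv_one]
  have hχ : IsDirichlet χ := dir_of_open hV hχ1
  have hval : ∀ g, ((χ g : ℂˣ) : ℂ) = ((B.ε g : ℂˣ) : ℂ)⁻¹ * ((ρ g).det)⁻¹ := by
    intro g
    change (((B.ε g * dt ρ g)⁻¹ : ℂˣ) : ℂ) = _
    rw [Units.val_inv_eq_inv_val, Units.val_mul, dt_val, mul_inv]
  have hdet : ∀ g, (ρ g).det ≠ 0 := fun g => by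
    rw [← dt_val]
    exact (dt ρ g).ne_zero
  have hodd : IsOddRep (dg 1 χ) := by
    refine dg_odd one_dir hχ fun c hc => ?_
    rw [hval, B.even c hc, hρ.odd c hc]
    simp
  have hprod : tr ρ * tr (dg 1 χ) = tr ρ + dual B.ε (tr ρ) := by
    funext g
    rw [Pi.mul_apply, Pi.add_apply, dg_tr, hval]
    unfold dual tr
    have h3 : (ρ g⁻¹).trace = (ρ g).trace * ((ρ g).det)⁻¹ := by
      refine trace_inv ?_
      rw [← map_mul, mul_inv_cancel, map_one]
    rw [h3, MonoidHom.one_apply, Units.val_one]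
    ring
  have hdual : dual B.ε (tr ρ) ∈ VirtualCharacters := by
    have h3 : dual B.ε (tr ρ) = fun g => tr ρ g * ((χ g : ℂˣ) : ℂ) := by
      funext g
      have h4 := congrFun hprod g
      rw [Pi.mul_apply, Pi.add_apply, dg_tr, MonoidHom.one_apply, Units.val_one] at h4
      linear_combination -h4
    rw [h3, vc_eq]
    exact twist_mem χ hV hχ1 (by rw [← vc_eq]; exact h1)
  have hdc := B.cont_dual _ h2
  have h5 := hQ ρ (dg 1 χ) hρ hodd (fun g => by
    rw [dg_det, hval, MonoidHom.one_apply, Units.val_one, one_mul]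
    have h6 := (B.ε g).ne_zero
    have h7 := hdet g
    field_simp) (by rw [hprod]; exact add_mem h1 hdual) (by rw [hprod]; exact add_mem h2 hdc)
  rw [hprod, B.ord_add _ h1 _ hdual h2 hdc, B.dim_add _ h1 _ hdual, B.ord_dual _ h1 h2, B.dim_dual _ h1] at h5
  linarith

/-- two Dirichlet characters of opposite parity -/
lemma pair (hQ : Beilinson B) {α β : AbsGal ℚ →* ℂˣ} (hα : IsDirichlet α) (hβ : IsDirichlet β)
    (h : ∀ c, IsComplexConj c → ((α c : ℂˣ) : ℂ) * β c = -1) :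
    defect B (fun g => ((α g : ℂˣ) : ℂ)) = - defect B (fun g => ((β g : ℂˣ) : ℂ)) := by
  have htr : tr (dg α β) = (fun g => ((α g : ℂˣ) : ℂ)) + fun g => ((β g : ℂˣ) : ℂ) := by
    funext g
    rw [dg_tr, Pi.add_apply]
  have h1 := single B hQ (dg_odd hα hβ h) (by rw [htr]; exact add_mem (lin_vc hα) (lin_vc hβ))
    (by rw [htr]; exact add_mem (B.cont_dirichlet _ hα) (B.cont_dirichlet _ hβ))
  rw [htr, B.ord_add _ (lin_vc hα) _ (lin_vc hβ) (B.cont_dirichlet _ hα) (B.cont_dirichlet _ hβ),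
    B.dim_add _ (lin_vc hα) _ (lin_vc hβ)] at h1
  unfold defect
  have h2 : B.ord (fun g => ((α g : ℂˣ) : ℂ)) - B.dim (fun g => ((α g : ℂˣ) : ℂ)) =
      -(B.ord (fun g => ((β g : ℂˣ) : ℂ)) - B.dim (fun g => ((β g : ℂˣ) : ℂ))) := by linarith
  rw [h2]
  push_cast
  ring

end proofs

open Pool.Agent.R409.TC in
theorem result (B : Form) :
    -- totally complex fields suffice
    ((∀ F : SubField ℚ, FiniteDimensional ℚ F → TotallyComplex F → ∀ ψ : F.fixingSubgroup →* ℂˣ,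
        IsArtin ψ → induced ψ ∈ B.cont ∧ B.ord (induced ψ) = B.dim (induced ψ)) →
      Beilinson B ∧
      ∀ χ ∈ VirtualCharacters, χ ∈ B.cont → ∀ c, IsComplexConj c →
        defect B χ = χ c * defect B (fun _ => 1)) ∧
    -- consequences of the conjecture for `f`
    (Beilinson B →
      (∀ ρ : AbsGal ℚ →* Matrix (Fin 2) (Fin 2) ℂ, IsOddRep ρ → tr ρ ∈ VirtualCharacters →
        tr ρ ∈ B.cont → B.ord (tr ρ) = B.dim (tr ρ)) ∧
      ∀ χ : AbsGal ℚ →* ℂˣ, IsDirichlet χ → ∀ c, IsComplexConj c →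
        defect B (fun g => ((χ g : ℂˣ) : ℂ)) = ((χ c : ℂˣ) : ℂ) * defect B (fun _ => 1)) := by
  refine ⟨fun hyp => ?_, fun hQ => ⟨fun ρ hρ h1 h2 => single B hQ hρ h1 h2, fun χ hχ c hc => ?_⟩⟩
  · have main : ∀ χ ∈ VirtualCharacters, χ ∈ B.cont → ∀ c, IsComplexConj c →
        defect B χ = χ c * defect B (fun _ => 1) := by
      intro χ hχ hχc c hc
      refine Pool.Agent.R409.TC.defect B.cont (fun a => B.ord a - B.dim a) ?_ ?_ ?_ χ
        (by rw [← vc_eq]; exact hχ) hχc c hc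
      · intro a ha ha' b hb hb'
        rw [← vc_eq] at ha' hb'
        change B.ord (a + b) - B.dim (a + b) = (B.ord a - B.dim a) + (B.ord b - B.dim b)
        rw [B.ord_add a ha' b hb' ha hb, B.dim_add a ha' b hb']
        ring
      · have := B.cont_dirichlet 1 one_dir
        simpa using this
      · intro H ψ hH hHc hψ
        obtain ⟨h1, h2⟩ := Pool.Agent.R386.RP.exists_nf hH
        have key : ∀ F : SubField ℚ, FiniteDimensional ℚ F → F.fixingSubgroup = H →
            up H (Pool.Agent.R386.RP.ex ψ) ∈ B.cont ∧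
              B.ord (up H (Pool.Agent.R386.RP.ex ψ)) - B.dim (up H (Pool.Agent.R386.RP.ex ψ)) = 0 := by
          rintro F hF rfl
          have h3 := hyp F hF (Pool.Agent.R386.RP.noReal_of_av hHc) ψ
            ((Pool.Agent.R386.RP.art_iff ψ).2 hψ)
          exact ⟨h3.1, sub_eq_zero.2 h3.2⟩
        exact key _ h1 h2
    refine ⟨fun ρ ρ' hρ hρ' _ h1 h2 => ?_, main⟩
    obtain ⟨c, hc⟩ := exists_cc
    have h3 := main _ h1 h2 c hc
    rw [Pi.mul_apply, tr_cc hρ hc, zero_mul, zero_mul] at h3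
    unfold defect at h3
    have h4 : B.ord (tr ρ * tr ρ') - B.dim (tr ρ * tr ρ') = 0 := by exact_mod_cast h3
    linarith
  · have hone : (fun _ => (1 : ℂ)) = fun g : AbsGal ℚ => (((1 : AbsGal ℚ →* ℂˣ) g : ℂˣ) : ℂ) := by
      funext g
      simp
    rcases cc_pm χ hc with h | h
    · obtain ⟨α, hα, hα1⟩ := exists_odd
      have h1 := pair B hQ hχ hα (fun d hd => by
        rw [cc_const χ hc hd, h, hα1 d hd]
        simp)
      have h2 := pair B hQ one_dir hα (fun d hd => by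
        rw [hα1 d hd]
        simp)
      rw [h1, ← h2, h, Units.val_one, one_mul, ← hone]
    · have h1 := pair B hQ hχ one_dir (fun d hd => by
        rw [cc_const χ hc hd, h]
        simp)
      rw [h1, h, ← hone]
      simp

end Pool.Agent.Results.MP_60ff09_nt.TotallyComplexFields
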